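import Pool.Agent.H247.SD.Stm

/-!
# Finitely many chain classes, open in the chain recurrent set (helper122 for helper247)
-/

set_option autoImplicit false

open Filter Set Metric

universe u

namespace Pool.Agent.H122.SD

open Pool.Agent.H247.SD
open Pool.Agent.R774.OS (CR Ch mem_CR Ch.of)
open Pool.Agent.Q182.MC (ChainTo cls chainTo_iff R R_mono ChainTo.trans)

section

variable {X : Type u} [MetricSpace X] [CompactSpace X] {f : X → X}

/-- a chain as a sequence -/
theorem seq_of {ε : ℝ} {a b : X} (h : Relation.TransGen (R f univ ε) a b) :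
    ∃ (m : ℕ) (x : ℕ → X), 1 ≤ m ∧ x 0 = a ∧ x m = b ∧ ∀ i < m, dist (f (x i)) (x (i + 1)) < ε := by
  induction h with
  | single h =>
    rename_i b
    refine ⟨1, fun i => if i = 0 then a else b, le_rfl, if_pos rfl, if_neg one_ne_zero, ?_⟩
    intro i hi
    have : i = 0 := by omega
    subst this
    exact h.2.2
  | tail h' h ih =>
    rename_i b c
    obtain ⟨m, x, hm, h0, h1, h2⟩ := ih
    refine ⟨m + 1, fun i => if i ≤ m then x i else c, by omega, ?_, if_neg (by omega), ?_⟩
    · show (if 0 ≤ m then x 0 else c) = a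
      rw [if_pos (Nat.zero_le m), h0]
    · intro i hi
      show dist (f (if i ≤ m then x i else c)) (if i + 1 ≤ m then x (i + 1) else c) < ε
      rw [if_pos (by omega : i ≤ m)]
      by_cases hi' : i + 1 ≤ m
      · rw [if_pos hi']
        exact h2 i (by omega)
      · rw [if_neg hi']
        have : i = m := by omega
        subst this
        rw [h1]
        exact h.2.2

theorem cr_of {a : X} (h : ChainTo f univ a a) : a ∈ CR f := by
  rw [mem_CR]
  intro δ hδ
  obtain ⟨m, x, hm, h0, h1, h2⟩ := seq_of (chainTo_iff.1 h δ hδ)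
  exact Ch.of hm h0 h1 h2

theorem lim_right {p b : X} (h : ∀ δ : ℝ, 0 < δ → ∃ b', dist b' b < δ ∧ ChainTo f univ p b') :
    ChainTo f univ p b := by
  rw [chainTo_iff]
  intro ε hε
  obtain ⟨b', hb', hc⟩ := h (ε / 2) (half_pos hε)
  obtain ⟨y, hy, hs⟩ := Relation.TransGen.tail'_iff.1 (chainTo_iff.1 hc (ε / 2) (half_pos hε))
  refine Relation.TransGen.tail'_iff.2 ⟨y, ?_, mem_univ _, mem_univ _, ?_⟩
  · exact Relation.ReflTransGen.mono (fun x z hxz => R_mono (by linarith : ε / 2 ≤ ε) hxz) _ _ hy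
  · have h1 := dist_triangle (f y) b' b
    have h2 := hs.2.2
    linarith

theorem lim_left (hf : Continuous f) {p b : X}
    (h : ∀ δ : ℝ, 0 < δ → ∃ b', dist b' b < δ ∧ ChainTo f univ b' p) : ChainTo f univ b p := by
  rw [chainTo_iff]
  intro ε hε
  obtain ⟨δ, hδ, hu⟩ := Metric.uniformContinuous_iff.1
    (CompactSpace.uniformContinuous_of_continuous hf) (ε / 2) (half_pos hε)
  obtain ⟨b', hb', hc⟩ := h δ hδ
  obtain ⟨y, hs, hy⟩ := Relation.TransGen.head'_iff.1 (chainTo_iff.1 hc (ε / 2) (half_pos hε))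
  refine Relation.TransGen.head'_iff.2 ⟨y, ⟨mem_univ _, mem_univ _, ?_⟩, ?_⟩
  · have h1 := dist_triangle (f b) (f b') y
    have h2 := hs.2.2
    have h3 : dist (f b) (f b') < ε / 2 := by
      rw [dist_comm]
      exact hu hb'
    linarith
  · exact Relation.ReflTransGen.mono (fun x z hxz => R_mono (by linarith : ε / 2 ≤ ε) hxz) _ _ hy

omit [CompactSpace X] in
theorem cls_eq {a b : X} (h : b ∈ cls f univ a) : cls f univ a = cls f univ b := by
  ext z
  constructor
  · rintro ⟨h1, h2⟩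
    exact ⟨h.2.trans h1, h2.trans h.1⟩
  · rintro ⟨h1, h2⟩
    exact ⟨h.1.trans h1, h2.trans h.2⟩

end

theorem main : S_FC.{u} := by
  classical
  intro X _ _ G hper hcl
  obtain ⟨δ, hδ, hper⟩ := hper
  have hGc : Continuous (G : X → X) := G.continuous
  have hone : ∃ η : ℝ, 0 < η ∧ ∀ a ∈ CR (G : X → X), ∀ c ∈ CR (G : X → X), dist a c < η →
      c ∈ cls (G : X → X) univ a := by
    refine ⟨δ, hδ, fun a ha c hc hac => ?_⟩
    obtain ⟨s, hs0, hs1, hs2⟩ : ∃ s : ℝ, 0 < s ∧ dist a c + 2 * s < δ ∧ 2 * s < δ := by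
      refine ⟨(δ - dist a c) / 4, by linarith, by linarith, ?_⟩
      have := dist_nonneg (x := a) (y := c)
      linarith
    -- a periodic point near a point of the chain recurrent set
    have key : ∀ a ∈ CR (G : X → X), ∃ p : X, (∃ k : ℕ, 1 ≤ k ∧ G^[k] p = p) ∧ dist a p < s ∧
        ChainTo (G : X → X) univ p a ∧ ChainTo (G : X → X) univ a p := by
      intro a ha
      obtain ⟨p, hp, hap⟩ := Metric.mem_closure_iff.1 (hcl ha) s hs0
      have h1 : ∀ ε : ℝ, 0 < ε → ∃ p' : X, dist p' a < ε ∧ p' ∈ cls (G : X → X) univ p := by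
        intro ε hε
        obtain ⟨p', hp', hap'⟩ := Metric.mem_closure_iff.1 (hcl ha) (min s ε) (lt_min hs0 hε)
        refine ⟨p', by rw [dist_comm]; exact hap'.trans_le (min_le_right _ _), ?_⟩
        refine hper p p' hp hp' ?_
        have h2 := dist_triangle p a p'
        have h3 := hap'.trans_le (min_le_left s ε)
        rw [dist_comm] at hap
        linarith
      refine ⟨p, hp, hap, ?_, ?_⟩
      · refine lim_right fun ε hε => ?_
        obtain ⟨p', h2, h3⟩ := h1 ε hε
        exact ⟨p', h2, h3.1⟩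
      · refine lim_left hGc fun ε hε => ?_
        obtain ⟨p', h2, h3⟩ := h1 ε hε
        exact ⟨p', h2, h3.2⟩
    obtain ⟨p, hp, hp1, hp2, hp3⟩ := key a ha
    obtain ⟨q, hq, hq1, hq2, hq3⟩ := key c hc
    have hpq : q ∈ cls (G : X → X) univ p := by
      refine hper p q hp hq ?_
      have h1 := dist_triangle4 p a c q
      rw [dist_comm] at hp1
      linarith
    exact ⟨hp3.trans (hpq.1.trans hq2), hq3.trans (hpq.2.trans hp2)⟩
  refine ⟨hone, ?_⟩
  obtain ⟨η, hη, h1⟩ := hone
  obtain ⟨t, -, htf, htc⟩ := finite_cover_balls_of_compact (isCompact_univ (X := X)) (half_pos hη)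
  refine (htf.image (fun x => if h : ∃ a ∈ CR (G : X → X), dist a x < η / 2 then
    cls (G : X → X) univ h.choose else ∅)).subset ?_
  rintro C ⟨a, ha, rfl⟩
  have haC := cr_of ha
  obtain ⟨x, hx, hax⟩ := mem_iUnion₂.1 (htc (mem_univ a))
  have hax' : dist a x < η / 2 := hax
  have hex : ∃ a ∈ CR (G : X → X), dist a x < η / 2 := ⟨a, haC, hax'⟩
  refine ⟨x, hx, ?_⟩
  show (if h : ∃ a ∈ CR (G : X → X), dist a x < η / 2 then
    cls (G : X → X) univ h.choose else ∅) = _
  rw [dif_pos hex]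
  obtain ⟨h2, h3⟩ := hex.choose_spec
  refine (cls_eq (h1 a haC _ h2 ?_)).symm
  have h4 := dist_triangle a x hex.choose
  rw [dist_comm] at h3
  linarith

end Pool.Agent.H122.SD
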